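import Mathlib

/-!
Reconstruction of magnified copies in the plane with three test sets
(MP_b01677_an, Q1, d = 2): definitions used in the proof.
-/

namespace Pool.Agent.Helper37.RT

open MeasureTheory Set

/-- the unit block -/
def BB : Set (ℝ × ℝ) := Ico (0 : ℝ) 1 ×ˢ Ico (0 : ℝ) 1

/-- the Haar function on `[0,1)` -/
noncomputable def haar (t : ℝ) : ℝ :=
  if 0 ≤ t ∧ t < 1 / 2 then 1 else if 1 / 2 ≤ t ∧ t < 1 then -1 else 0

/-- the tent function on `[0,1]`, with maximum `1` -/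
noncomputable def tent (t : ℝ) : ℝ := max 0 (1 - |2 * t - 1|)

/-- the bump of the dyadic square of side `2^(-k)` with index `c` -/
noncomputable def psi (k : ℕ) (c : ℕ × ℕ) (y : ℝ × ℝ) : ℝ :=
  tent (2 ^ k * y.1 - c.1) * tent (2 ^ k * y.2 - c.2)

/-- the partial derivatives of the bump -/
noncomputable def dpsi (i : Fin 2) (k : ℕ) (c : ℕ × ℕ) (y : ℝ × ℝ) : ℝ :=
  if i = 0 then 2 ^ (k + 1) * (haar (2 ^ k * y.1 - c.1) * tent (2 ^ k * y.2 - c.2))
  else 2 ^ (k + 1) * (tent (2 ^ k * y.1 - c.1) * haar (2 ^ k * y.2 - c.2))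

/-- the dyadic squares of level `k` in the unit block -/
def cells (k : ℕ) : Finset (ℕ × ℕ) := Finset.range (2 ^ k) ×ˢ Finset.range (2 ^ k)

/-- the indicator of the magnified copy `r E + x` -/
noncomputable def ff (E : Set (ℝ × ℝ)) (r : ℝ) (x : ℝ × ℝ) (y : ℝ × ℝ) : ℝ :=
  E.indicator (fun _ => (1 : ℝ)) (r⁻¹ • (y - x))

/-- the coefficients of a magnified copy -/
noncomputable def bb (E : Set (ℝ × ℝ)) (i : Fin 2) (k : ℕ) (c : ℕ × ℕ) (r : ℝ) (x : ℝ × ℝ) : ℝ :=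
  ∫ y, dpsi i k c y * ff E r x y

/-- distance of a density from being an indicator function, on the unit block -/
noncomputable def qq (g : ℝ × ℝ → ℝ) : ℝ := ∫ y in BB, g y * (1 - g y)

/-- the correction with coefficients `s` on the levels `K ≤ k < K + n` -/
noncomputable def corr (s : ℕ → ℕ × ℕ → ℝ) (K n : ℕ) (y : ℝ × ℝ) : ℝ :=
  ∑ k ∈ Finset.Ico K (K + n), ∑ c ∈ cells k, s k c * psi k c y

/-- the linear functional of the coefficients `s` attached to an array `b` -/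
noncomputable def lin (s : ℕ → ℕ × ℕ → ℝ) (b : ℕ → ℕ × ℕ → ℝ) (K n : ℕ) : ℝ :=
  ∑ k ∈ Finset.Ico K (K + n), ∑ c ∈ cells k, s k c * b k c

/-- the energy of an array `b` -/
noncomputable def ener (b : ℕ → ℕ × ℕ → ℝ) (K n : ℕ) : ℝ :=
  ∑ k ∈ Finset.Ico K (K + n), ∑ c ∈ cells k, (b k c) ^ 2

/-- the accumulated quadratic variation of the coefficients -/
noncomputable def qvar (s : ℕ → ℕ × ℕ → ℝ) (K n : ℕ) : ℝ :=
  1 / 9 * ∑ k ∈ Finset.Ico K (K + n), ∑ c ∈ cells k, (1 / 4 : ℝ) ^ k * (s k c) ^ 2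

/-- admissible densities: values in `[0,1]`, Lipschitz with constant `Λ` for the sup distance -/
structure Adm (Λ : ℝ) (g : ℝ × ℝ → ℝ) : Prop where
  nonneg : ∀ y, 0 ≤ g y
  le_one : ∀ y, g y ≤ 1
  lip : ∀ y y', |g y - g y'| ≤ Λ * dist y y'

end Pool.Agent.Helper37.RT
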