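import Pool.Agent.Helper37.RQ.Main
import Pool.Agent.Helper37.RT.Two

/-! Reconstruction of magnified copies with `d + 1` test sets, in every dimension `d ≥ 2`. -/

namespace Pool.Agent.Helper37.RT

open MeasureTheory

theorem recon_all (d : ℕ) (hd : 2 ≤ d) (E : Set (Fin d → ℝ)) (hb : Bornology.IsBounded E)
    (hE : NullMeasurableSet E volume) (hpos : 0 < volume E) :
    Pool.Agent.Helper47.Recon.CanReconstruct (Pool.Agent.Helper47.Recon.magnifiedCopies E) (d + 1) := by
  rcases Nat.lt_or_ge 2 d with h | h
  · exact Pool.Agent.Helper37.RQ.recon_three d h E hb hE hpos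
  · obtain rfl : d = 2 := le_antisymm h hd
    exact reconstruct_two hE hb hpos

end Pool.Agent.Helper37.RT
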