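import Pool.Agent.Helper37.RT.Defs
import Pool.Agent.Helper23.RT.T1
import Pool.Agent.Helper87.RT.T3

/-! Row T7: the process of one stage. -/

namespace Pool.Agent.Helper37.RT

open MeasureTheory Set Filter Topology

theorem t7_corr_succ (s : ℕ → ℕ × ℕ → ℝ) (K n : ℕ) (y : ℝ × ℝ) :
    corr s K (n + 1) y = corr s K n y + ∑ c ∈ cells (K + n), s (K + n) c * psi (K + n) c y := by
  unfold corr
  rw [← add_assoc, Finset.sum_Ico_succ_top (Nat.le_add_right K n)]

theorem t7_lin_succ (s : ℕ → ℕ × ℕ → ℝ) (b : ℕ → ℕ × ℕ → ℝ) (K n : ℕ) :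
    lin s b K (n + 1) = lin s b K n + ∑ c ∈ cells (K + n), s (K + n) c * b (K + n) c := by
  unfold lin
  rw [← add_assoc, Finset.sum_Ico_succ_top (Nat.le_add_right K n)]

theorem t7_ener_succ (b : ℕ → ℕ × ℕ → ℝ) (K n : ℕ) :
    ener b K (n + 1) = ener b K n + ∑ c ∈ cells (K + n), (b (K + n) c) ^ 2 := by
  unfold ener
  rw [← add_assoc, Finset.sum_Ico_succ_top (Nat.le_add_right K n)]

theorem t7_qvar_succ (s : ℕ → ℕ × ℕ → ℝ) (K n : ℕ) :
    qvar s K (n + 1) = qvar s K n
      + 1 / 9 * ∑ c ∈ cells (K + n), (1 / 4 : ℝ) ^ (K + n) * (s (K + n) c) ^ 2 := by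
  unfold qvar
  rw [← add_assoc, Finset.sum_Ico_succ_top (Nat.le_add_right K n), mul_add]

section congr
variable {s s' : ℕ → ℕ × ℕ → ℝ} {K n : ℕ} (h : ∀ k, k < K + n → ∀ c, s k c = s' k c)
include h

theorem t7_corr_congr (y : ℝ × ℝ) : corr s K n y = corr s' K n y := by
  unfold corr
  apply Finset.sum_congr rfl
  intro k hk
  apply Finset.sum_congr rfl
  intro c _
  rw [h k (Finset.mem_Ico.1 hk).2]

theorem t7_lin_congr (b : ℕ → ℕ × ℕ → ℝ) : lin s b K n = lin s' b K n := by
  unfold lin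
  apply Finset.sum_congr rfl
  intro k hk
  apply Finset.sum_congr rfl
  intro c _
  rw [h k (Finset.mem_Ico.1 hk).2]

theorem t7_qvar_congr : qvar s K n = qvar s' K n := by
  unfold qvar
  congr 1
  apply Finset.sum_congr rfl
  intro k hk
  apply Finset.sum_congr rfl
  intro c _
  rw [h k (Finset.mem_Ico.1 hk).2]

end congr

theorem t7_BB_sub : BB ⊆ Icc (0 : ℝ) 1 ×ˢ Icc (0 : ℝ) 1 :=
  Set.prod_mono Ico_subset_Icc_self Ico_subset_Icc_self

theorem t7_BB_meas : MeasurableSet BB := measurableSet_Ico.prod measurableSet_Ico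

theorem t7_BB_vol : volume BB = 1 := by
  unfold BB
  rw [Measure.volume_eq_prod, Measure.prod_prod]
  simp

theorem t7_int {f : ℝ × ℝ → ℝ} (hf : Continuous f) : IntegrableOn f BB := by
  have hc : IsCompact (Icc (0 : ℝ) 1 ×ˢ Icc (0 : ℝ) 1) := isCompact_Icc.prod isCompact_Icc
  exact (hf.continuousOn.integrableOn_compact hc).mono_set t7_BB_sub

/-- cells as sets -/
def cel (k : ℕ) (c : ℕ × ℕ) : Set (ℝ × ℝ) :=
  Ico ((c.1 : ℝ) / 2 ^ k) ((c.1 + 1 : ℝ) / 2 ^ k) ×ˢ Ico ((c.2 : ℝ) / 2 ^ k) ((c.2 + 1 : ℝ) / 2 ^ k)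

theorem t7_cel_meas (k : ℕ) (c : ℕ × ℕ) : MeasurableSet (cel k c) :=
  measurableSet_Ico.prod measurableSet_Ico

theorem t7_cel_vol (k : ℕ) (c : ℕ × ℕ) : volume.real (cel k c) = (1 / 4 : ℝ) ^ k := by
  unfold cel
  rw [Measure.real, Measure.volume_eq_prod, Measure.prod_prod, Real.volume_Ico, Real.volume_Ico,
    ENNReal.toReal_mul, ENNReal.toReal_ofReal, ENNReal.toReal_ofReal]
  · rw [show (1 / 4 : ℝ) = 1 / 2 * (1 / 2) by norm_num, mul_pow]
    congr 1
    · field_simp
      rw [← mul_pow]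
      norm_num
    · field_simp
      rw [← mul_pow]
      norm_num
  · rw [sub_nonneg]
    apply div_le_div_of_nonneg_right _ (by positivity)
    linarith
  · rw [sub_nonneg]
    apply div_le_div_of_nonneg_right _ (by positivity)
    linarith

theorem t7_cel_sub {k : ℕ} {c : ℕ × ℕ} (hc : c ∈ cells k) : cel k c ⊆ BB := by
  unfold cells at hc
  rw [Finset.mem_product, Finset.mem_range, Finset.mem_range] at hc
  have h1 : (c.1 : ℝ) + 1 ≤ 2 ^ k := by exact_mod_cast hc.1
  have h2 : (c.2 : ℝ) + 1 ≤ 2 ^ k := by exact_mod_cast hc.2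
  rintro y ⟨⟨h3, h4⟩, ⟨h5, h6⟩⟩
  refine ⟨⟨?_, ?_⟩, ⟨?_, ?_⟩⟩
  · exact le_trans (by positivity) h3
  · refine lt_of_lt_of_le h4 ?_
    rw [div_le_one (by positivity)]
    exact h1
  · exact le_trans (by positivity) h5
  · refine lt_of_lt_of_le h6 ?_
    rw [div_le_one (by positivity)]
    exact h2

/-- the cell of a point -/
theorem t7_exists_cel (k : ℕ) {y : ℝ × ℝ} (hy : y ∈ BB) : ∃ c ∈ cells k, y ∈ cel k c := by
  obtain ⟨⟨h1, h2⟩, ⟨h3, h4⟩⟩ := hy
  have hp : (0 : ℝ) < 2 ^ k := by positivity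
  refine ⟨(⌊2 ^ k * y.1⌋₊, ⌊2 ^ k * y.2⌋₊), ?_, ?_⟩
  · unfold cells
    rw [Finset.mem_product, Finset.mem_range, Finset.mem_range]
    constructor
    · rw [Nat.floor_lt (by positivity)]
      push_cast
      nlinarith
    · rw [Nat.floor_lt (by positivity)]
      push_cast
      nlinarith
  · refine ⟨⟨?_, ?_⟩, ⟨?_, ?_⟩⟩
    · rw [div_le_iff₀ hp, mul_comm y.1]
      exact Nat.floor_le (by positivity)
    · rw [lt_div_iff₀ hp, mul_comm y.1]
      exact Nat.lt_floor_add_one _
    · rw [div_le_iff₀ hp, mul_comm y.2]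
      exact Nat.floor_le (by positivity)
    · rw [lt_div_iff₀ hp, mul_comm y.2]
      exact Nat.lt_floor_add_one _

/-- the lower corner -/
noncomputable def cor (k : ℕ) (c : ℕ × ℕ) : ℝ × ℝ := ((c.1 : ℝ) / 2 ^ k, (c.2 : ℝ) / 2 ^ k)

theorem t7_dist_cor {k : ℕ} {c : ℕ × ℕ} {y : ℝ × ℝ} (hy : y ∈ cel k c) :
    dist (cor k c) y ≤ (1 / 2 : ℝ) ^ k := by
  obtain ⟨⟨h1, h2⟩, ⟨h3, h4⟩⟩ := hy
  have hp : (0 : ℝ) < 2 ^ k := by positivity
  have he : (1 / 2 : ℝ) ^ k = 1 / 2 ^ k := by rw [one_div_pow]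
  rw [he, Prod.dist_eq]
  apply max_le
  · rw [Real.dist_eq]
    change |(c.1 : ℝ) / 2 ^ k - y.1| ≤ _
    rw [abs_sub_comm, abs_of_nonneg (by linarith)]
    have : (c.1 + 1 : ℝ) / 2 ^ k = (c.1 : ℝ) / 2 ^ k + 1 / 2 ^ k := by ring
    linarith
  · rw [Real.dist_eq]
    change |(c.2 : ℝ) / 2 ^ k - y.2| ≤ _
    rw [abs_sub_comm, abs_of_nonneg (by linarith)]
    have : (c.2 + 1 : ℝ) / 2 ^ k = (c.2 : ℝ) / 2 ^ k + 1 / 2 ^ k := by ring
    linarith

theorem t7_cel_of_psi {k : ℕ} {c : ℕ × ℕ} {y : ℝ × ℝ} (h : psi k c y ≠ 0) : y ∈ cel k c := by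
  obtain ⟨h1, h2, h3⟩ := psi_support h
  have hp : (0 : ℝ) < 2 ^ k := by positivity
  rw [← h1]
  refine ⟨⟨?_, ?_⟩, ⟨?_, ?_⟩⟩
  · rw [div_le_iff₀ hp, mul_comm y.1]
    exact Nat.floor_le (by positivity)
  · rw [lt_div_iff₀ hp, mul_comm y.1]
    exact Nat.lt_floor_add_one _
  · rw [div_le_iff₀ hp, mul_comm y.2]
    exact Nat.floor_le (by positivity)
  · rw [lt_div_iff₀ hp, mul_comm y.2]
    exact Nat.lt_floor_add_one _

/-- the amplitude in a cell -/
noncomputable def amp (g : ℝ × ℝ → ℝ) (A M : ℝ) (k : ℕ) (c : ℕ × ℕ) : ℝ :=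
  max 0 (min A (min (g (cor k c)) (1 - g (cor k c)) - M))

theorem amp_nonneg (g : ℝ × ℝ → ℝ) (A M : ℝ) (k : ℕ) (c : ℕ × ℕ) : 0 ≤ amp g A M k c :=
  le_max_left _ _

theorem amp_le {g : ℝ × ℝ → ℝ} {A M : ℝ} (hA : 0 ≤ A) (k : ℕ) (c : ℕ × ℕ) : amp g A M k c ≤ A :=
  max_le hA (min_le_left _ _)

theorem amp_le_val {g : ℝ × ℝ → ℝ} {A M Λ : ℝ} (hg : Adm Λ g) (hΛ : 0 ≤ Λ) {k : ℕ} {c : ℕ × ℕ}
    (hM : Λ * (1 / 2) ^ k ≤ M) {y : ℝ × ℝ} (hy : y ∈ cel k c) :
    amp g A M k c ≤ g y ∧ amp g A M k c ≤ 1 - g y := by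
  have h1 := hg.lip (cor k c) y
  have h2 : Λ * dist (cor k c) y ≤ M :=
    (mul_le_mul_of_nonneg_left (t7_dist_cor hy) hΛ).trans hM
  have h3 := abs_le.1 (h1.trans h2)
  have h4 := hg.nonneg y
  have h5 := hg.le_one y
  have h6 : min A (min (g (cor k c)) (1 - g (cor k c)) - M) ≤ g y := by
    refine (min_le_right _ _).trans ?_
    have := min_le_left (g (cor k c)) (1 - g (cor k c))
    linarith
  have h7 : min A (min (g (cor k c)) (1 - g (cor k c)) - M) ≤ 1 - g y := by
    refine (min_le_right _ _).trans ?_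
    have := min_le_right (g (cor k c)) (1 - g (cor k c))
    linarith
  exact ⟨max_le h4 h6, max_le (by linarith) h7⟩

/-- a cell with small amplitude has small variance -/
theorem t7_small {g : ℝ × ℝ → ℝ} {A M Λ : ℝ} (hg : Adm Λ g) (hΛ : 0 ≤ Λ) (hA : 0 < A) {k : ℕ}
    {c : ℕ × ℕ} (hM : Λ * (1 / 2) ^ k ≤ M) (hM9 : M ≤ 9 * A) {y : ℝ × ℝ} (hy : y ∈ cel k c)
    (hc : amp g A M k c < A) : g y * (1 - g y) ≤ 19 * A := by
  have h1 := hg.lip (cor k c) y
  have h2 : Λ * dist (cor k c) y ≤ M :=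
    (mul_le_mul_of_nonneg_left (t7_dist_cor hy) hΛ).trans hM
  have h3 := abs_le.1 (h1.trans h2)
  have h4 := hg.nonneg y
  have h5 := hg.le_one y
  have h6 : min A (min (g (cor k c)) (1 - g (cor k c)) - M) < A :=
    lt_of_le_of_lt (le_max_right _ _) hc
  have h7 : min (g (cor k c)) (1 - g (cor k c)) - M < A := by
    by_contra hcon
    rw [not_lt] at hcon
    rw [min_eq_left hcon] at h6
    exact lt_irrefl _ h6
  rcases min_cases (g (cor k c)) (1 - g (cor k c)) with ⟨h8, _⟩ | ⟨h8, _⟩
  · rw [h8] at h7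
    nlinarith
  · rw [h8] at h7
    nlinarith

theorem t7_gain {g : ℝ × ℝ → ℝ} {A M Λ κ : ℝ} (hg : Adm Λ g) (hgc : Continuous g) (hΛ : 0 ≤ Λ)
    (hA : 0 < A) {k : ℕ} (hM : Λ * (1 / 2) ^ k ≤ M) (hM9 : M ≤ 9 * A)
    (hκ : 1 / 9 * ∑ c ∈ cells k, (1 / 4 : ℝ) ^ k * (amp g A M k c) ^ 2 ≤ κ) :
    qq g ≤ 9 * κ / (4 * A ^ 2) + 19 * A := by
  set W : ℝ × ℝ → ℝ := fun y =>
    ∑ c ∈ cells k, (cel k c).indicator (fun _ => 1 / 4 * ((amp g A M k c) ^ 2 / A ^ 2)) y with hW
  have hWi : IntegrableOn W BB := by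
    rw [hW]
    apply integrable_finsetSum
    intro c _
    apply Integrable.indicator _ (t7_cel_meas k c)
    exact integrableOn_const (by rw [t7_BB_vol]; exact ENNReal.one_ne_top)
  have hWint : ∫ y in BB, W y = ∑ c ∈ cells k, (1 / 4 : ℝ) ^ k * (1 / 4 * ((amp g A M k c) ^ 2 / A ^ 2)) := by
    rw [hW]
    rw [integral_finsetSum]
    · apply Finset.sum_congr rfl
      intro c hc
      rw [setIntegral_indicator (t7_cel_meas k c), inter_eq_self_of_subset_right (t7_cel_sub hc),
        setIntegral_const, t7_cel_vol, smul_eq_mul]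
    · intro c _
      apply Integrable.indicator _ (t7_cel_meas k c)
      exact integrableOn_const (by rw [t7_BB_vol]; exact ENNReal.one_ne_top)
  have h1 : qq g ≤ ∫ y in BB, (W y + 19 * A) := by
    unfold qq
    apply setIntegral_mono_on
    · exact t7_int (by fun_prop)
    · exact hWi.add (integrableOn_const (by rw [t7_BB_vol]; exact ENNReal.one_ne_top))
    · exact t7_BB_meas
    · intro y hy
      obtain ⟨c, hc, hyc⟩ := t7_exists_cel k hy
      have hterm : ∀ c' ∈ cells k, 0 ≤ (cel k c').indicator (fun _ => 1 / 4 * ((amp g A M k c') ^ 2 / A ^ 2)) y := by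
        intro c' _
        apply indicator_nonneg
        intro _ _
        positivity
      have hW1 : (cel k c).indicator (fun _ => 1 / 4 * ((amp g A M k c) ^ 2 / A ^ 2)) y ≤ W y :=
        Finset.single_le_sum hterm hc
      rw [indicator_of_mem hyc] at hW1
      by_cases hac : amp g A M k c < A
      · have := t7_small hg hΛ hA hM hM9 hyc hac
        have h0 : 0 ≤ 1 / 4 * ((amp g A M k c) ^ 2 / A ^ 2) := by positivity
        linarith
      · have heq : amp g A M k c = A := le_antisymm (amp_le hA.le k c) (not_lt.1 hac)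
        rw [heq, div_self (by positivity)] at hW1
        have h4 := hg.nonneg y
        have h5 := hg.le_one y
        nlinarith [sq_nonneg (g y - 1 / 2)]
  have h2 : ∫ y in BB, (W y + 19 * A) = (∫ y in BB, W y) + 19 * A := by
    rw [integral_add hWi (integrableOn_const (by rw [t7_BB_vol]; exact ENNReal.one_ne_top)),
      setIntegral_const, Measure.real, t7_BB_vol]
    simp
  have h3 : ∑ c ∈ cells k, (1 / 4 : ℝ) ^ k * (1 / 4 * ((amp g A M k c) ^ 2 / A ^ 2))
      = 9 / (4 * A ^ 2) * (1 / 9 * ∑ c ∈ cells k, (1 / 4 : ℝ) ^ k * (amp g A M k c) ^ 2) := by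
    rw [Finset.mul_sum, Finset.mul_sum]
    apply Finset.sum_congr rfl
    intro c _
    field_simp
  have h4 : 9 / (4 * A ^ 2) * (1 / 9 * ∑ c ∈ cells k, (1 / 4 : ℝ) ^ k * (amp g A M k c) ^ 2)
      ≤ 9 / (4 * A ^ 2) * κ := mul_le_mul_of_nonneg_left hκ (by positivity)
  calc qq g ≤ (∫ y in BB, W y) + 19 * A := by rw [← h2]; exact h1
    _ ≤ 9 / (4 * A ^ 2) * κ + 19 * A := by rw [hWint, h3]; linarith
    _ = 9 * κ / (4 * A ^ 2) + 19 * A := by ring

theorem t7_sq (k : ℕ) (σ : ℕ × ℕ → ℝ) (y : ℝ × ℝ) :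
    (∑ c ∈ cells k, σ c * psi k c y) ^ 2 = ∑ c ∈ cells k, (σ c) ^ 2 * psi k c y ^ 2 := by
  rw [sq, Finset.sum_mul_sum]
  apply Finset.sum_congr rfl
  intro c hc
  rw [Finset.sum_eq_single c]
  · ring
  · intro c' _ hne
    have := psi_disj (k := k) hne.symm y
    calc σ c * psi k c y * (σ c' * psi k c' y) = σ c * σ c' * (psi k c y * psi k c' y) := by ring
      _ = 0 := by rw [this, mul_zero]
  · intro h
    exact absurd hc h

theorem t7_identity {g₀ : ℝ × ℝ → ℝ} (hg₀ : Continuous g₀) (s : ℕ → ℕ × ℕ → ℝ) (K n : ℕ)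
    (σ : ℕ × ℕ → ℝ) :
    2 * qq (fun y => g₀ y + (corr s K n y + ∑ c ∈ cells (K + n), σ c * psi (K + n) c y))
      + (qvar s K n + 1 / 9 * ∑ c ∈ cells (K + n), (1 / 4 : ℝ) ^ (K + n) * (σ c) ^ 2)
      + ∫ y in BB, (corr s K n y + ∑ c ∈ cells (K + n), σ c * psi (K + n) c y) ^ 2
    = 2 * qq (fun y => g₀ y + corr s K n y) + qvar s K n + (∫ y in BB, (corr s K n y) ^ 2)
      + ∑ c ∈ cells (K + n), σ c * ∫ y in BB, psi (K + n) c y
          * (2 - 4 * (g₀ y + corr s K n y) + 2 * corr s K n y) := by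
  set k := K + n
  have hcc : Continuous (corr s K n) := corr_continuous s K n
  have hψ : ∀ c, Continuous (psi k c) := fun c => psi_continuous k c
  set v : ℝ × ℝ → ℝ := fun y => ∑ c ∈ cells k, σ c * psi k c y with hv
  have hvc : Continuous v := by
    rw [hv]
    exact continuous_finsetSum _ fun c _ => continuous_const.mul (hψ c)
  have hv2 : ∫ y in BB, v y ^ 2 = 1 / 9 * ∑ c ∈ cells k, (1 / 4 : ℝ) ^ k * (σ c) ^ 2 := by
    have h1 : ∀ y, v y ^ 2 = ∑ c ∈ cells k, (σ c) ^ 2 * psi k c y ^ 2 := fun y => t7_sq k σ y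
    simp_rw [h1]
    rw [integral_finsetSum, Finset.mul_sum]
    · apply Finset.sum_congr rfl
      intro c hc
      rw [integral_const_mul, psi_sq_int hc]
      ring
    · intro c _
      exact t7_int (by have := hψ c; fun_prop)
  have hlin : ∫ y in BB, v y * (2 - 4 * (g₀ y + corr s K n y) + 2 * corr s K n y)
      = ∑ c ∈ cells k, σ c * ∫ y in BB, psi k c y
          * (2 - 4 * (g₀ y + corr s K n y) + 2 * corr s K n y) := by
    have h1 : ∀ y, v y * (2 - 4 * (g₀ y + corr s K n y) + 2 * corr s K n y)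
        = ∑ c ∈ cells k, σ c * (psi k c y * (2 - 4 * (g₀ y + corr s K n y) + 2 * corr s K n y)) := by
      intro y
      rw [hv]
      simp only
      rw [Finset.sum_mul]
      apply Finset.sum_congr rfl
      intro c _
      ring
    simp_rw [h1]
    rw [integral_finsetSum]
    · apply Finset.sum_congr rfl
      intro c _
      rw [integral_const_mul]
    · intro c _
      exact t7_int (by have := hψ c; fun_prop)
  have key : 2 * qq (fun y => g₀ y + (corr s K n y + v y)) + ∫ y in BB, (corr s K n y + v y) ^ 2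
      = 2 * qq (fun y => g₀ y + corr s K n y) + (∫ y in BB, (corr s K n y) ^ 2)
        + (∫ y in BB, v y * (2 - 4 * (g₀ y + corr s K n y) + 2 * corr s K n y))
        - ∫ y in BB, v y ^ 2 := by
    unfold qq
    rw [← integral_const_mul, ← integral_const_mul]
    rw [← integral_add (t7_int (by fun_prop)) (t7_int (by fun_prop)),
      ← integral_add (t7_int (by fun_prop)) (t7_int (by fun_prop)),
      ← integral_add (t7_int (by fun_prop)) (t7_int (by fun_prop)),
      ← integral_sub (t7_int (by fun_prop)) (t7_int (by fun_prop))]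
    congr 1
    ext y
    ring
  rw [← hlin, ← hv2]
  linarith

theorem t7_lam_nonneg {Λ : ℝ} {g : ℝ × ℝ → ℝ} (hg : Adm Λ g) : 0 ≤ Λ := by
  have h := hg.lip (0, 0) (1, 0)
  have hd : dist ((0 : ℝ), (0 : ℝ)) ((1 : ℝ), (0 : ℝ)) = 1 := by
    rw [Prod.dist_eq]
    simp
  rw [hd, mul_one] at h
  exact (abs_nonneg _).trans h

theorem t7_cont {Λ : ℝ} {g : ℝ × ℝ → ℝ} (hg : Adm Λ g) : Continuous g := by
  have h0 := t7_lam_nonneg hg
  have hl : LipschitzWith ⟨Λ, h0⟩ g := by
    apply LipschitzWith.of_dist_le_mul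
    intro y y'
    rw [Real.dist_eq]
    exact hg.lip y y'
  exact hl.continuous

theorem process {g₀ : ℝ × ℝ → ℝ} {Λ : ℝ} (hg : Adm Λ g₀) {A : ℝ} (hA : 0 < A) {K : ℕ}
    (hK : Λ * (1 / 2) ^ K ≤ A) {τ : Type*} (Θ : Finset τ) (w lam : τ → ℝ)
    (hw : ∀ t ∈ Θ, 0 ≤ w t) (b : τ → ℕ → ℕ × ℕ → ℝ) {κ δ : ℝ} (hκ : 0 ≤ κ)
    (hδ : 9 * κ / (4 * A ^ 2) + 19 * A ≤ δ) (n : ℕ) :
    ∃ s : ℕ → ℕ × ℕ → ℝ, (∀ k c, |s k c| ≤ A) ∧
      (∀ y, 0 ≤ g₀ y + corr s K n y ∧ g₀ y + corr s K n y ≤ 1) ∧
      ∑ t ∈ Θ, w t * Real.exp (lam t * lin s (b t) K n - lam t ^ 2 * A ^ 2 / 2 * ener (b t) K n)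
        + 2 * qq (fun y => g₀ y + corr s K n y) + qvar s K n + ∫ y in BB, (corr s K n y) ^ 2
        ≤ ∑ t ∈ Θ, w t + 2 * qq g₀ ∧
      (qq (fun y => g₀ y + corr s K n y) ≤ δ ∨ n * κ ≤ qvar s K n) := by
  have hΛ := t7_lam_nonneg hg
  have hgc := t7_cont hg
  induction n with
  | zero =>
    refine ⟨fun _ _ => 0, fun k c => by simp [hA.le], ?_, ?_, ?_⟩
    · intro y
      have : corr (fun _ _ => 0) K 0 y = 0 := by simp [corr]
      rw [this, add_zero]
      exact ⟨hg.nonneg y, hg.le_one y⟩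
    · have h1 : ∀ y, corr (fun _ _ => 0) K 0 y = 0 := fun y => by simp [corr]
      have h2 : ∀ t, lin (fun _ _ => 0) (b t) K 0 = 0 := fun t => by simp [lin]
      have h3 : ∀ t, ener (b t) K 0 = 0 := fun t => by simp [ener]
      have h4 : qvar (fun _ _ => 0) K 0 = 0 := by simp [qvar]
      simp only [h1, h2, h3, h4, add_zero, mul_zero, sub_zero, Real.exp_zero, mul_one]
      simp
    · right
      have h4 : qvar (fun _ _ => 0) K 0 = 0 := by simp [qvar]
      rw [h4]
      simp
  | succ n ih =>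
    obtain ⟨s, hs, hrange, hpot, hgain⟩ := ih
    have hsumT : ∀ (s : ℕ → ℕ × ℕ → ℝ) (m : ℕ), ∀ t ∈ Θ, 0 ≤ w t * Real.exp (lam t * lin s (b t) K m
        - lam t ^ 2 * A ^ 2 / 2 * ener (b t) K m) := by
      intro s m t ht
      have := hw t ht
      positivity
    by_cases hq : qq (fun y => g₀ y + corr s K n y) ≤ δ
    · -- nothing to do on this level
      set s' : ℕ → ℕ × ℕ → ℝ := fun k c => if k = K + n then 0 else s k c with hs'
      have hcg : ∀ k, k < K + n → ∀ c, s' k c = s k c := by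
        intro k hk c
        rw [hs']
        simp only
        rw [if_neg (by omega)]
      have hz : ∀ c, s' (K + n) c = 0 := by
        intro c
        rw [hs']
        simp
      have h1 : ∀ y, corr s' K (n + 1) y = corr s K n y := by
        intro y
        rw [t7_corr_succ, t7_corr_congr hcg]
        simp [hz]
      have h2 : ∀ t, lin s' (b t) K (n + 1) = lin s (b t) K n := by
        intro t
        rw [t7_lin_succ, t7_lin_congr hcg]
        simp [hz]
      have h3 : qvar s' K (n + 1) = qvar s K n := by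
        rw [t7_qvar_succ, t7_qvar_congr hcg]
        simp [hz]
      refine ⟨s', ?_, ?_, ?_, ?_⟩
      · intro k c
        rw [hs']
        simp only
        split_ifs
        · simp [hA.le]
        · exact hs k c
      · intro y
        rw [h1]
        exact hrange y
      · simp only [h1, h2, h3]
        refine le_trans ?_ hpot
        have h4 : ∑ t ∈ Θ, w t * Real.exp (lam t * lin s (b t) K n
              - lam t ^ 2 * A ^ 2 / 2 * ener (b t) K (n + 1))
            ≤ ∑ t ∈ Θ, w t * Real.exp (lam t * lin s (b t) K n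
              - lam t ^ 2 * A ^ 2 / 2 * ener (b t) K n) := by
          apply Finset.sum_le_sum
          intro t ht
          apply mul_le_mul_of_nonneg_left _ (hw t ht)
          apply Real.exp_le_exp.2
          rw [t7_ener_succ]
          have h5 : 0 ≤ ∑ c ∈ cells (K + n), (b t (K + n) c) ^ 2 :=
            Finset.sum_nonneg fun c _ => sq_nonneg _
          have h6 : 0 ≤ lam t ^ 2 * A ^ 2 / 2 := by positivity
          nlinarith
        linarith
      · left
        simp only [h1]
        exact hq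
    · rw [not_le] at hq
      have hgain' : n * κ ≤ qvar s K n := by
        rcases hgain with h | h
        · exact absurd h (not_le.2 hq)
        · exact h
      set k := K + n with hk
      set g : ℝ × ℝ → ℝ := fun y => g₀ y + corr s K n y with hgdef
      set Λ' := Λ + 8 * A * 2 ^ k with hΛ'
      have hΛ'0 : 0 ≤ Λ' := by positivity
      have hadm : Adm Λ' g := by
        refine ⟨fun y => (hrange y).1, fun y => (hrange y).2, fun y y' => ?_⟩
        have h1 := hg.lip y y'
        have h2 := corr_lip hA.le hs K n y y'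
        rw [hgdef]
        simp only
        have h3 : g₀ y + corr s K n y - (g₀ y' + corr s K n y')
            = (g₀ y - g₀ y') + (corr s K n y - corr s K n y') := by ring
        rw [h3]
        refine (abs_add_le _ _).trans ?_
        rw [hΛ', add_mul]
        linarith
      set M := Λ' * (1 / 2) ^ k with hM
      have hM9 : M ≤ 9 * A := by
        have h1 : (1 / 2 : ℝ) ^ k ≤ (1 / 2) ^ K :=
          pow_le_pow_of_le_one (by norm_num) (by norm_num) (by omega)
        have h2 : Λ * (1 / 2) ^ k ≤ A := (mul_le_mul_of_nonneg_left h1 hΛ).trans hK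
        have h3 : (2 : ℝ) ^ k * (1 / 2) ^ k = 1 := by
          rw [← mul_pow]
          norm_num
        rw [hM, hΛ', add_mul]
        have h4 : 8 * A * 2 ^ k * (1 / 2) ^ k = 8 * A := by rw [mul_assoc, h3, mul_one]
        rw [h4]
        linarith
      have hgcont : Continuous g := hgc.add (corr_continuous s K n)
      set a : ℕ × ℕ → ℝ := fun c => amp g A M k c with ha
      have ha0 : ∀ c, 0 ≤ a c := fun c => amp_nonneg g A M k c
      have haA : ∀ c, a c ≤ A := fun c => amp_le hA.le k c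
      obtain ⟨ω, hω, hsum⟩ := sign_choice (cells k) Θ
        (fun t => w t * Real.exp (lam t * lin s (b t) K n - lam t ^ 2 * A ^ 2 / 2 * ener (b t) K n))
        (hsumT s n) (fun t c => lam t * (a c * b t k c))
        (fun c => a c * ∫ y in BB, psi k c y * (2 - 4 * (g₀ y + corr s K n y) + 2 * corr s K n y))
      have hω2 : ∀ c, (ω c) ^ 2 = 1 := by
        intro c
        rcases hω c with h | h <;> rw [h] <;> norm_num
      have hωabs : ∀ c, |ω c| = 1 := by
        intro c
        rcases hω c with h | h <;> rw [h] <;> norm_num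
      set s' : ℕ → ℕ × ℕ → ℝ := fun k' c => if k' = k then ω c * a c else s k' c with hs'
      have hcg : ∀ k', k' < K + n → ∀ c, s' k' c = s k' c := by
        intro k' hk' c
        rw [hs']
        simp only
        rw [if_neg (by omega)]
      have hz : ∀ c, s' (K + n) c = ω c * a c := by
        intro c
        rw [hs']
        simp [hk]
      have h1 : ∀ y, corr s' K (n + 1) y = corr s K n y + ∑ c ∈ cells k, (ω c * a c) * psi k c y := by
        intro y
        rw [t7_corr_succ, t7_corr_congr hcg]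
        simp only [hz]
        rfl
      have h2 : ∀ t, lin s' (b t) K (n + 1) = lin s (b t) K n + ∑ c ∈ cells k, (ω c * a c) * b t k c := by
        intro t
        rw [t7_lin_succ, t7_lin_congr hcg]
        simp only [hz]
        rfl
      have h3 : qvar s' K (n + 1) = qvar s K n
          + 1 / 9 * ∑ c ∈ cells k, (1 / 4 : ℝ) ^ k * (ω c * a c) ^ 2 := by
        rw [t7_qvar_succ, t7_qvar_congr hcg]
        simp only [hz]
        rfl
      refine ⟨s', ?_, ?_, ?_, ?_⟩
      · intro k' c
        rw [hs']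
        simp only
        split_ifs
        · rw [abs_mul, hωabs, one_mul, abs_of_nonneg (ha0 c)]
          exact haA c
        · exact hs k' c
      · intro y
        rw [h1]
        have h4 : ∃ z : ℝ, ∑ c ∈ cells k, (ω c * a c) * psi k c y = z ∧ |z| ≤ g y ∧ |z| ≤ 1 - g y := by
          by_cases hex : ∃ c ∈ cells k, psi k c y ≠ 0
          · obtain ⟨c, hc, hne⟩ := hex
            refine ⟨(ω c * a c) * psi k c y, ?_, ?_⟩
            · rw [Finset.sum_eq_single c]
              · intro c' _ hcc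
                have h5 := psi_disj (k := k) hcc y
                have h6 : psi k c' y = 0 := by
                  rcases mul_eq_zero.1 h5 with h | h
                  · exact h
                  · exact absurd h hne
                rw [h6, mul_zero]
              · intro h
                exact absurd hc h
            · have h7 := amp_le_val (A := A) hadm hΛ'0 (k := k) (c := c) (M := M) le_rfl (t7_cel_of_psi hne)
              have h8 : |ω c * a c * psi k c y| ≤ a c := by
                rw [abs_mul, abs_mul, hωabs, one_mul, abs_of_nonneg (ha0 c),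
                  abs_of_nonneg (psi_nonneg k c y)]
                have := psi_le_one k c y
                have := ha0 c
                nlinarith
              exact ⟨h8.trans h7.1, h8.trans h7.2⟩
          · push Not at hex
            refine ⟨0, ?_, ?_, ?_⟩
            · apply Finset.sum_eq_zero
              intro c hc
              rw [hex c hc, mul_zero]
            · rw [abs_zero]
              exact hadm.nonneg y
            · rw [abs_zero]
              linarith [hadm.le_one y]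
        obtain ⟨z, hz1, hz2, hz3⟩ := h4
        rw [hz1]
        have h5 := neg_abs_le z
        have h6 := le_abs_self z
        have h7 : g y = g₀ y + corr s K n y := rfl
        constructor <;> linarith
      · -- the potential
        have hid := t7_identity hgc s K n (fun c => ω c * a c)
        simp only [← hk] at hid
        simp only [h1, h2, h3]
        have h4 : ∑ t ∈ Θ, w t * Real.exp (lam t * (lin s (b t) K n + ∑ c ∈ cells k, (ω c * a c) * b t k c)
              - lam t ^ 2 * A ^ 2 / 2 * ener (b t) K (n + 1))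
            ≤ ∑ t ∈ Θ, w t * Real.exp (lam t * lin s (b t) K n - lam t ^ 2 * A ^ 2 / 2 * ener (b t) K n)
              * Real.exp (∑ c ∈ cells k, ω c * (lam t * (a c * b t k c))
                - (∑ c ∈ cells k, (lam t * (a c * b t k c)) ^ 2) / 2) := by
          apply Finset.sum_le_sum
          intro t ht
          rw [mul_assoc, ← Real.exp_add]
          apply mul_le_mul_of_nonneg_left _ (hw t ht)
          apply Real.exp_le_exp.2
          rw [t7_ener_succ]
          have h5 : ∑ c ∈ cells k, ω c * (lam t * (a c * b t k c))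
              = lam t * ∑ c ∈ cells k, (ω c * a c) * b t k c := by
            rw [Finset.mul_sum]
            apply Finset.sum_congr rfl
            intro c _
            ring
          have h6 : ∑ c ∈ cells k, (lam t * (a c * b t k c)) ^ 2
              ≤ lam t ^ 2 * A ^ 2 * ∑ c ∈ cells (K + n), (b t (K + n) c) ^ 2 := by
            rw [Finset.mul_sum]
            apply Finset.sum_le_sum
            intro c _
            have h7 : (a c) ^ 2 ≤ A ^ 2 := pow_le_pow_left₀ (ha0 c) (haA c) 2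
            have h8 : 0 ≤ lam t ^ 2 * (b t k c) ^ 2 := by positivity
            calc (lam t * (a c * b t k c)) ^ 2 = (lam t ^ 2 * (b t k c) ^ 2) * (a c) ^ 2 := by ring
              _ ≤ (lam t ^ 2 * (b t k c) ^ 2) * A ^ 2 := mul_le_mul_of_nonneg_left h7 h8
              _ = lam t ^ 2 * A ^ 2 * (b t (K + n) c) ^ 2 := by rw [← hk]; ring
          rw [h5]
          linarith
        have h9 : ∑ c ∈ cells k, (ω c * a c) * ∫ y in BB, psi k c y
              * (2 - 4 * (g₀ y + corr s K n y) + 2 * corr s K n y)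
            = ∑ c ∈ cells k, ω c * (a c * ∫ y in BB, psi k c y
              * (2 - 4 * (g₀ y + corr s K n y) + 2 * corr s K n y)) := by
          apply Finset.sum_congr rfl
          intro c _
          ring
        rw [h9] at hid
        linarith
      · right
        rw [h3]
        have h4 : κ ≤ 1 / 9 * ∑ c ∈ cells k, (1 / 4 : ℝ) ^ k * (ω c * a c) ^ 2 := by
          by_contra hcon
          rw [not_le] at hcon
          have h5 : 1 / 9 * ∑ c ∈ cells k, (1 / 4 : ℝ) ^ k * (amp g A M k c) ^ 2 ≤ κ := by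
            have h6 : ∑ c ∈ cells k, (1 / 4 : ℝ) ^ k * (amp g A M k c) ^ 2
                = ∑ c ∈ cells k, (1 / 4 : ℝ) ^ k * (ω c * a c) ^ 2 := by
              apply Finset.sum_congr rfl
              intro c _
              rw [mul_pow, hω2, one_mul]
            rw [h6]
            exact hcon.le
          have h7 := t7_gain hadm hgcont hΛ'0 hA le_rfl hM9 h5
          exact absurd (h7.trans hδ) (not_le.2 hq)
        push_cast
        linarith

end Pool.Agent.Helper37.RT
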